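import Mathlib
import Pool.Agent.Zk12.FG.Stm
import Pool.Agent.Zk94.BS.Num

/-!
# Infinitely divisible elements of `ℚ_p`, and approximation (project FG, parts N1 and N2)
-/

set_option autoImplicit false
set_option linter.all false

namespace Pool.Agent.Zk95.FG

open Pool.Agent.Zk12.FG

/-- **part N2** -/
theorem pow : S_POW := by
  intro p _ u hu h
  -- the valuation is zero
  have hval : u.valuation = 0 := by
    by_contra hne
    obtain ⟨z, hz⟩ := h (u.valuation.natAbs + 1) (Nat.succ_pos _)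
    have h1 := Padic.valuation_pow z (u.valuation.natAbs + 1)
    rw [← hz] at h1
    have h2 : ((u.valuation.natAbs + 1 : ℕ) : ℤ) ∣ u.valuation := ⟨z.valuation, h1⟩
    have h3 := Int.natAbs_dvd_natAbs.2 h2
    rw [Int.natAbs_natCast] at h3
    have h4 := Nat.le_of_dvd (Int.natAbs_pos.2 hne) h3
    omega
  have hn1 : ‖u‖ = 1 := Pool.Agent.Zk94.BS.norm_one_of_val p u hu hval
  obtain ⟨U, hU⟩ : ∃ U : ℤ_[p], (U : ℚ_[p]) = u := ⟨⟨u, hn1.le⟩, rfl⟩
  have hU1 : U = 1 := by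
    rw [← PadicInt.ext_of_toZModPow]
    intro k
    have hk : 0 < Nat.totient (p ^ k) := Nat.totient_pos.2 (pow_pos (Fact.out : p.Prime).pos _)
    obtain ⟨z, hz⟩ := h _ hk
    have hz0 : z ≠ 0 := by
      rintro rfl
      rw [zero_pow hk.ne'] at hz
      exact hu hz
    have hzv : z.valuation = 0 := by
      have h1 := Padic.valuation_pow z (Nat.totient (p ^ k))
      rw [← hz, hval] at h1
      rcases mul_eq_zero.1 h1.symm with h2 | h2
      · exfalso
        have : Nat.totient (p ^ k) = 0 := by exact_mod_cast h2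
        omega
      · exact h2
    obtain ⟨y, hy, hy1⟩ := Pool.Agent.Zk94.BS.pow_congr p k _ (dvd_refl _) z
      (Pool.Agent.Zk94.BS.norm_one_of_val p z hz0 hzv)
    have hyU : U = y := by
      apply Subtype.ext
      change (U : ℚ_[p]) = (y : ℚ_[p])
      rw [hU, hy, hz]
    rw [hyU, hy1, map_one]
  rw [← hU, hU1]
  rfl

/-- elements near `1` are `m`-th powers -/
theorem near_pow {p : ℕ} [Fact p.Prime] {m : ℕ} (hm : 0 < m) {u : ℚ_[p]}
    (h : ‖u - 1‖ < ‖(m : ℚ_[p])‖ ^ 2) : ∃ z : ℚ_[p], z ^ m = u := by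
  have hm1 : ‖(m : ℚ_[p])‖ ≤ 1 := by
    have := Padic.norm_int_le_one (p := p) (m : ℤ)
    simpa using this
  have h1 : ‖u - 1‖ < 1 := lt_of_lt_of_le h (pow_le_one₀ (norm_nonneg _) hm1)
  have hu1 : ‖u‖ ≤ 1 := by
    have h2 : u = (u - 1) + 1 := by ring
    rw [h2]
    refine (Padic.nonarchimedean _ _).trans ?_
    rw [norm_one]
    exact max_le h1.le le_rfl
  obtain ⟨U, hU⟩ : ∃ U : ℤ_[p], (U : ℚ_[p]) = u := ⟨⟨u, hu1⟩, rfl⟩
  obtain ⟨z, hz, -⟩ := hensels_lemma (p := p) (R := ℤ_[p])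
    (F := (Polynomial.X ^ m - Polynomial.C U : Polynomial ℤ_[p])) (a := 1) (by
      simp only [map_sub, map_pow, Polynomial.aeval_X, Polynomial.aeval_C, one_pow,
        Polynomial.derivative_sub, Polynomial.derivative_X_pow, Polynomial.derivative_C, sub_zero,
        map_mul, mul_one, Algebra.algebraMap_self, RingHom.id_apply]
      rw [PadicInt.norm_def, PadicInt.norm_def]
      push_cast
      rw [hU, norm_sub_rev]
      simpa using h)
  refine ⟨z, ?_⟩
  simp only [map_sub, map_pow, Polynomial.aeval_X, Polynomial.aeval_C, Algebra.algebraMap_self,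
    RingHom.id_apply] at hz
  rw [← hU, ← sub_eq_zero]
  exact_mod_cast congrArg (fun y : ℤ_[p] => (y : ℚ_[p])) hz

/-- **part N1** -/
theorem approx : S_APPROX := by
  intro n p _ τ P hP m hm
  have hcont : Continuous (fun x : Fin n → ℚ_[p] => MvPolynomial.aeval x P) := by
    have h1 : (fun x : Fin n → ℚ_[p] => MvPolynomial.aeval x P) =
        fun x => MvPolynomial.eval x (MvPolynomial.map (algebraMap ℚ ℚ_[p]) P) := by
      funext x
      rw [MvPolynomial.eval_map, MvPolynomial.aeval_def]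
    rw [h1]
    exact MvPolynomial.continuous_eval _
  set y₀ := MvPolynomial.aeval τ P with hy₀
  have hy0 : 0 < ‖y₀‖ := norm_pos_iff.2 hP
  have hm0 : 0 < ‖(m : ℚ_[p])‖ := norm_pos_iff.2 (by exact_mod_cast hm.ne')
  have hm1 : ‖(m : ℚ_[p])‖ ≤ 1 := by
    have := Padic.norm_int_le_one (p := p) (m : ℤ)
    simpa using this
  have hopen : IsOpen {x : Fin n → ℚ_[p] | ‖MvPolynomial.aeval x P - y₀‖ <
      ‖y₀‖ * ‖(m : ℚ_[p])‖ ^ 2} := isOpen_lt ((hcont.sub continuous_const).norm) continuous_const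
  have hdense : DenseRange (fun (a : Fin n → ℚ) (i : Fin n) => ((a i : ℚ) : ℚ_[p])) :=
    DenseRange.piMap fun _ => Padic.denseRange_ratCast p
  obtain ⟨a, ha⟩ := hdense.exists_mem_open hopen ⟨τ, by
    change ‖MvPolynomial.aeval τ P - y₀‖ < _
    rw [sub_self, norm_zero]
    positivity⟩
  have hev : MvPolynomial.aeval (fun i => ((a i : ℚ) : ℚ_[p])) P =
      algebraMap ℚ ℚ_[p] (MvPolynomial.eval a P) := by
    rw [MvPolynomial.aeval_def]
    exact (MvPolynomial.eval₂_comp_left (algebraMap ℚ ℚ_[p]) (RingHom.id ℚ) a P).symm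
  have ha' : ‖algebraMap ℚ ℚ_[p] (MvPolynomial.eval a P) - y₀‖ < ‖y₀‖ * ‖(m : ℚ_[p])‖ ^ 2 := by
    rw [← hev]
    exact ha
  set g := algebraMap ℚ ℚ_[p] (MvPolynomial.eval a P) with hg
  have hlt : ‖g - y₀‖ < ‖y₀‖ := lt_of_lt_of_le ha' (by
    calc ‖y₀‖ * ‖(m : ℚ_[p])‖ ^ 2 ≤ ‖y₀‖ * 1 :=
          mul_le_mul_of_nonneg_left (pow_le_one₀ hm0.le hm1) hy0.le
      _ = ‖y₀‖ := mul_one _)
  have hgn : ‖g‖ = ‖y₀‖ := by
    have h2 : g = (g - y₀) + y₀ := by ring
    have h3 := Padic.add_eq_max_of_ne (p := p) (q := g - y₀) (r := y₀) hlt.ne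
    rw [← h2] at h3
    rw [h3, max_eq_right hlt.le]
  have hg0 : g ≠ 0 := by
    intro h
    rw [h, norm_zero] at hgn
    exact hy0.ne hgn
  obtain ⟨z, hz⟩ := near_pow (p := p) hm (u := y₀ / g) (by
    have h4 : y₀ / g - 1 = (y₀ - g) / g := by
      field_simp
    rw [h4, norm_div, hgn, div_lt_iff₀ hy0, norm_sub_rev, mul_comm]
    exact ha')
  refine ⟨a, z, ?_, ?_, ?_⟩
  · intro h
    apply hg0
    rw [hg, h, map_zero]
  · rintro rfl
    rw [zero_pow hm.ne'] at hz
    have := div_ne_zero hP hg0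
    exact this hz.symm
  · rw [hz]
    change y₀ = g * (y₀ / g)
    rw [mul_div_cancel₀ _ hg0]

end Pool.Agent.Zk95.FG
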