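import Mathlib
import Pool.Agent.Zk12.FG.Stm
import Pool.Agent.W620.SC.Norm
import Pool.Agent.Y158.GR.PlcL

/-!
# Kummer theory along a section, over any field of characteristic zero
-/

set_option autoImplicit false
set_option linter.all false

namespace Pool.Agent.Zk95.FG

open Pool.Agent.TH954 Pool.Agent.Zk12.FG Pool.Agent.Y158.GR

/-- Kummer theory along a section, over any field of characteristic zero (copy of `Zk94/BS/Ku`) -/
theorem kummer {k F M B : Type} [Field k] [CharZero k] [Field F] [Field M] [Field B] [Algebra F M]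
    [Algebra k M] [Algebra k B] [Algebra.IsAlgebraic F M] [IsAlgClosure k B]
    (s : GalSection k F M B) {h : M} (h0 : h ≠ 0) {n : ℕ} (hn : 0 < n)
    (hfix : ∀ g, s.s g (h ^ n) = h ^ n) :
    ∃ (c : k) (w : M), c ≠ 0 ∧ (∀ g, s.s g w = w) ∧ h ^ n = algebraMap k M c * w ^ n := by
  haveI : IsAlgClosed B := IsAlgClosure.isAlgClosed k
  haveI : Algebra.IsAlgebraic k B := IsAlgClosure.isAlgebraic
  haveI : CharZero B := charZero_of_injective_algebraMap (algebraMap k B).injective
  haveI : Normal k B := IsAlgClosure.normal k B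
  haveI : IsGalois k B := ⟨⟩
  obtain ⟨ra, hra⟩ : ∃ ra : (B ≃ₐ[k] B) →* RingAut M, ∀ g z, ra g z = s.s g z :=
    ⟨{ toFun := fun g => (s.s g).toRingEquiv
       map_one' := by
        apply RingEquiv.ext
        intro z
        change s.s 1 z = z
        rw [map_one]; rfl
       map_mul' := fun g g' => by
        apply RingEquiv.ext
        intro z
        change s.s (g * g') z = s.s g (s.s g' z)
        rw [map_mul]; rfl }, fun g z => rfl⟩
  have h1 : {g : B ≃ₐ[k] B | s.s g h = h} ∈ nhds (1 : B ≃ₐ[k] B) := by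
    have h2 := s.cont.continuousAt (x := 1)
    rw [ContinuousAt, map_one] at h2
    exact h2 (fix_nhds h)
  rw [krullTopology_mem_nhds_one_iff] at h1
  obtain ⟨E, hE, hEh⟩ := h1
  haveI := hE
  obtain ⟨β, hβ0, hβ⟩ := Pool.Agent.W620.SC.exists_fixed_multiple ra (s.j : B →+* M)
    (fun σ a => by rw [hra]; exact s.sec σ a) ⊤ h h0 (by
      intro σ _
      have h1 : (s.s σ h / h) ^ n = 1 := by
        rw [div_pow, ← map_pow, hfix σ, div_self (pow_ne_zero _ h0)]
      obtain ⟨ζ, hζ⟩ := Pool.Agent.W620.SC.root_mem (s.j : B →+* M) hn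
        (h := s.s σ h / h) (b := 1) (by rw [h1, map_one])
      refine ⟨ζ, ?_⟩
      rw [hζ, hra, div_mul_cancel₀ _ h0]) E (by
      intro σ hσ
      rw [hra]
      exact hEh hσ)
  have hβ' : ∀ g, s.s g (s.j β * h) = s.j β * h := fun g => by
    have := hβ g (Subgroup.mem_top g)
    rwa [hra] at this
  have hjβ : s.j β ≠ 0 := (map_ne_zero _).2 hβ0
  have hc : ∀ g : B ≃ₐ[k] B, g (β ^ n) = β ^ n := by
    intro g
    apply (s.j : B →+* M).injective
    change s.j (g (β ^ n)) = s.j (β ^ n)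
    rw [← s.sec g]
    have e : s.j (β ^ n) = (s.j β * h) ^ n / h ^ n := by
      rw [mul_pow, map_pow, mul_div_assoc, div_self (pow_ne_zero _ h0), mul_one]
    rw [e, map_div₀, hfix g, map_pow, hβ' g]
  obtain ⟨c, hc⟩ := IntermediateField.mem_bot.1
    (Pool.Agent.W620.SC.mem_of_fixed (⊥ : IntermediateField k B) (fun σ _ => hc σ))
  have e : algebraMap k M c = s.j β ^ n := by
    rw [← s.j.commutes c, hc, map_pow]
  have hc0 : c ≠ 0 := by
    rintro rfl
    rw [map_zero] at hc
    exact pow_ne_zero n hβ0 hc.symm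
  refine ⟨c⁻¹, s.j β * h, inv_ne_zero hc0, hβ', ?_⟩
  rw [map_inv₀, e, mul_pow, inv_mul_cancel_left₀ (pow_ne_zero _ hjβ)]

/-- an element of `K(t)` is a polynomial in `t` up to an `m`-th power -/
theorem exists_poly {K k : Type} [Field K] [Field k] [Algebra K k] {n : ℕ} {t : Fin n → k}
    (ht : RatFn K t) (c : k) (hc : c ≠ 0) {m : ℕ} (hm : 0 < m) :
    ∃ (P : MvPolynomial (Fin n) K) (d : k), d ≠ 0 ∧ MvPolynomial.aeval t P ≠ 0 ∧
      c = MvPolynomial.aeval t P * d ^ m := by
  have h1 : c ∈ IntermediateField.adjoin K (Set.range t) := by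
    rw [ht.2]
    trivial
  rw [IntermediateField.mem_adjoin_range_iff] at h1
  obtain ⟨P, Q, h⟩ := h1
  have hQ : MvPolynomial.aeval t Q ≠ 0 := by
    intro h0
    rw [h0, div_zero] at h
    exact hc h
  refine ⟨P * Q ^ (m - 1), (MvPolynomial.aeval t Q)⁻¹, inv_ne_zero hQ, ?_, ?_⟩
  · rw [map_mul, map_pow]
    have hP : MvPolynomial.aeval t P ≠ 0 := by
      intro h0
      rw [h0, zero_div] at h
      exact hc h
    exact mul_ne_zero hP (pow_ne_zero _ hQ)
  · rw [h, map_mul, map_pow]
    obtain ⟨m, rfl⟩ := Nat.exists_eq_succ_of_ne_zero hm.ne'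
    rw [Nat.succ_sub_one, inv_pow, pow_succ]
    field_simp

end Pool.Agent.Zk95.FG
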