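import Mathlib
import Pool.Agent.Zk12.FG.Stm
import Pool.Agent.H391R2.HitSpec

/-!
# Hilbert irreducibility in several variables (project FG, part O1)
-/

set_option autoImplicit false
set_option linter.all false

namespace Pool.Agent.Zk95.FG

open Pool.Agent.Zk12.FG

/-- **part O1** -/
theorem hit : S_HIT := by
  intro n f hf hroot D hD
  obtain ⟨φ, h1, h2⟩ := Pool.Agent.H391R2.sp_mvPolynomial (Fin n) f hf hroot D hD
  have hφ : φ = MvPolynomial.eval (fun i => φ (MvPolynomial.X i)) := by
    apply MvPolynomial.ringHom_ext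
    · intro r
      rw [MvPolynomial.eval_C]
      exact RingHom.congr_fun (Subsingleton.elim (φ.comp MvPolynomial.C) (RingHom.id ℚ)) r
    · intro i
      rw [MvPolynomial.eval_X]
  refine ⟨fun i => φ (MvPolynomial.X i), ?_, ?_⟩
  · rw [← hφ]
    exact h1
  · rw [← hφ]
    exact h2

end Pool.Agent.Zk95.FG
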