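import Mathlib
import Pool.Agent.Zk12.FG.Stm
import Pool.Agent.N890.KO.All

/-!
# Koenigsmann's theorem over `ℚ_p` (project FG, part K)
-/

set_option autoImplicit false
set_option linter.all false

open NumberField IsDedekindDomain

namespace Pool.Agent.Zk95.FG

open Pool.Agent.TH954 Pool.Agent.Zk12.FG

/-- the completion of `ℚ` at `p` is `ℚ_p` -/
theorem exists_equiv (p : ℕ) [hp : Fact p.Prime] :
    ∃ w : HeightOneSpectrum (𝓞 ℚ), Nonempty (w.adicCompletion ℚ ≃+* ℚ_[p]) :=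
  ⟨(Rat.HeightOneSpectrum.primesEquiv (R := 𝓞 ℚ)).symm ⟨p, hp.out⟩,
    ⟨((Padic.adicCompletionEquiv (𝓞 ℚ) ⟨p, hp.out⟩).symm.toAlgEquiv : _ ≃+* _)⟩⟩

/-- **part K** -/
theorem koep : S_KOEP := by
  intro p _ k F Ω B C _ _ _ _ _ _ _ _ _ _ _ _ _ _ _ _ _ s
  obtain ⟨w, ⟨θ⟩⟩ := exists_equiv p
  letI : Algebra k (w.adicCompletion ℚ) := (θ.symm.toRingHom.comp (algebraMap k ℚ_[p])).toAlgebra
  obtain ⟨pl, hpl⟩ := Pool.Agent.N890.KO.koenigsmann ℚ w k F Ω B s
  let Θ : AlgebraicClosure (w.adicCompletion ℚ) ≃+* C :=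
    IsAlgClosure.equivOfEquiv (AlgebraicClosure (w.adicCompletion ℚ)) C θ
  have hΘ : ∀ x : w.adicCompletion ℚ, Θ (algebraMap _ _ x) = algebraMap ℚ_[p] C (θ x) :=
    fun x => IsAlgClosure.equivOfEquiv_algebraMap _ _ θ x
  let q : Plc k Ω C :=
    { W := pl.W
      ρ := (Θ : _ →+* C).comp pl.ρ
      loc := fun x hx => pl.loc x (by
        intro h
        apply hx
        rw [RingHom.comp_apply, h, map_zero])
      comm := fun c => by
        obtain ⟨h, e⟩ := pl.comm c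
        refine ⟨h, ?_⟩
        rw [RingHom.comp_apply, e]
        change Θ (algebraMap k (AlgebraicClosure (w.adicCompletion ℚ)) c) = _
        rw [IsScalarTower.algebraMap_apply k (w.adicCompletion ℚ)
          (AlgebraicClosure (w.adicCompletion ℚ)), hΘ, IsScalarTower.algebraMap_apply k ℚ_[p] C]
        congr 1
        exact θ.apply_symm_apply _ }
  have hq : ∀ x c, q.val x c ↔ pl.val x (Θ.symm c) := by
    intro x c
    constructor
    · rintro ⟨h, e⟩
      refine ⟨h, ?_⟩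
      rw [← e]
      exact (Θ.symm_apply_apply _).symm
    · rintro ⟨h, e⟩
      refine ⟨h, ?_⟩
      change Θ (pl.ρ ⟨x, h⟩) = c
      rw [e, Θ.apply_symm_apply]
  refine ⟨q, ?_⟩
  intro σ g hg x c hx
  -- the automorphism on the other algebraic closure
  let σ' : AlgebraicClosure (w.adicCompletion ℚ) ≃ₐ[w.adicCompletion ℚ]
      AlgebraicClosure (w.adicCompletion ℚ) :=
    AlgEquiv.ofRingEquiv (f := (Θ.trans (σ : C ≃+* C)).trans Θ.symm) (fun y => by
      change Θ.symm (σ (Θ (algebraMap _ _ y))) = _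
      rw [hΘ, σ.commutes, ← hΘ, Θ.symm_apply_apply])
  have hσ' : ∀ y, σ' y = Θ.symm (σ (Θ y)) := fun y => rfl
  rw [hq] at hx ⊢
  have h1 := hpl σ' g (fun z c' hz => by
    have h2 := hg z (Θ c') ((hq _ _).2 (by rwa [Θ.symm_apply_apply]))
    rw [hσ']
    exact (hq _ _).1 h2) x _ hx
  rwa [hσ', Θ.apply_symm_apply] at h1

end Pool.Agent.Zk95.FG
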