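import Mathlib
import Pool.Agent.Zk95.FG.Kum

/-!
# Specialisation of a section of `Gal(Ω/F) → G_{ℚ(t)}` at a rational value of `t`
-/

set_option autoImplicit false
set_option linter.all false

namespace Pool.Agent.Zk95.FG

open Pool.Agent.TH954 Pool.Agent.Zk12.FG Pool.Agent.Y158.GR

attribute [-instance] DivisionRing.toRatAlgebra

/-- rational constants are units -/
theorem val_const {F₀ : Type} [Field F₀] [Algebra ℚ F₀] {O : ValuationSubring F₀}
    (hO : ∀ c : ℚ, algebraMap ℚ F₀ c ∈ O) {c : ℚ} (hc : c ≠ 0) :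
    O.valuation (algebraMap ℚ F₀ c) = 1 := by
  have h1 : O.valuation (algebraMap ℚ F₀ c) ≤ 1 := (O.valuation_le_one_iff _).2 (hO c)
  have h2 : O.valuation (algebraMap ℚ F₀ c⁻¹) ≤ 1 := (O.valuation_le_one_iff _).2 (hO c⁻¹)
  have h3 : O.valuation (algebraMap ℚ F₀ c) * O.valuation (algebraMap ℚ F₀ c⁻¹) = 1 := by
    rw [← map_mul, ← map_mul, mul_inv_cancel₀ hc, map_one, map_one]
  refine le_antisymm h1 ?_
  rw [← h3]
  exact mul_le_of_le_one_right' h2

/-- the value of the function `(x - b) / (x - b')` at a point with `x = e` -/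
theorem val_frac {F₀ : Type} [Field F₀] [Algebra ℚ F₀] {O : ValuationSubring F₀}
    (hO : ∀ c : ℚ, algebraMap ℚ F₀ c ∈ O) {x : F₀} {e b b' : ℚ} (he : (x - algebraMap ℚ F₀ e)⁻¹ ∉ O)
    (hb : e ≠ b) (hb' : e ≠ b') :
    O.valuation ((x - algebraMap ℚ F₀ b) / (x - algebraMap ℚ F₀ b') -
      algebraMap ℚ F₀ ((e - b) / (e - b'))) < 1 := by
  have hu0 : x - algebraMap ℚ F₀ e ≠ 0 := by
    intro h
    rw [h, inv_zero] at he
    exact he (zero_mem _)
  have hu : O.valuation (x - algebraMap ℚ F₀ e) < 1 := by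
    by_contra hcon
    rw [not_lt] at hcon
    apply he
    rw [← O.valuation_le_one_iff, map_inv₀]
    exact inv_le_one_of_one_le₀ hcon
  have hc : O.valuation (algebraMap ℚ F₀ (e - b')) = 1 := val_const hO (sub_ne_zero.2 hb')
  have hx : x - algebraMap ℚ F₀ b' = algebraMap ℚ F₀ (e - b') + (x - algebraMap ℚ F₀ e) := by
    rw [map_sub]; ring
  have hv : O.valuation (x - algebraMap ℚ F₀ b') = 1 := by
    rw [hx, O.valuation.map_add_eq_of_lt_left (by rw [hc]; exact hu), hc]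
  have hx0 : x - algebraMap ℚ F₀ b' ≠ 0 := by
    intro h
    rw [h, map_zero] at hv
    exact zero_ne_one hv
  have hc0 : algebraMap ℚ F₀ (e - b') ≠ 0 := by
    intro h
    rw [h, map_zero] at hc
    exact zero_ne_one hc
  have key : (x - algebraMap ℚ F₀ b) / (x - algebraMap ℚ F₀ b') -
      algebraMap ℚ F₀ ((e - b) / (e - b')) = (x - algebraMap ℚ F₀ e) * algebraMap ℚ F₀ (b - b') *
        ((x - algebraMap ℚ F₀ b') * algebraMap ℚ F₀ (e - b'))⁻¹ := by
    rw [map_div₀]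
    field_simp
    simp only [map_sub]
    ring
  rw [key, map_mul, map_mul, map_inv₀, map_mul, hv, hc, mul_one, inv_one, mul_one]
  have h4 : O.valuation (algebraMap ℚ F₀ (b - b')) ≤ 1 := (O.valuation_le_one_iff _).2 (hO _)
  exact lt_of_le_of_lt (mul_le_of_le_one_right' h4) hu

section

variable {n : ℕ} {k F₀ F Ω B : Type} [Field k] [Field F₀] [Field F] [Field Ω]
  [Field B] [Algebra ℚ k] [Algebra ℚ F₀] [Algebra k F] [Algebra F Ω] [Algebra k Ω]
  [Algebra k B] [IsScalarTower k F Ω] [IsAlgClosure F Ω] [IsAlgClosure k B]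

theorem spec (h1 : S_SPLITN) (h2 : S_RES) (h3 : S_CLS) {t : Fin n → k} (ht : RatFn ℚ t)
    (i₀ : F₀ →+* F) {x : F₀} {E : Finset ℚ} (hAG : AllGeo ℚ F₀ x E) (s : GalSection k F Ω B)
    {b b' : ℚ} (hb : b ∉ E) (hb' : b' ∉ E) {m : ℕ} (hm : 0 < m) (P : MvPolynomial (Fin n) ℚ)
    (w : Ω) (hw : ∀ g, s.s g w = w) (hw0 : w ≠ 0)
    (heq : algebraMap F Ω (i₀ ((x - algebraMap ℚ F₀ b) / (x - algebraMap ℚ F₀ b'))) =
      algebraMap k Ω (MvPolynomial.aeval t P) * w ^ m) (a : Fin n → ℚ)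
    (ha : MvPolynomial.eval a P ≠ 0) :
    ∃ e ∈ E, ∃ r : ℚ, (e - b) / (e - b') = MvPolynomial.eval a P * r ^ m := by
  haveI : CharZero k := charZero_of_injective_algebraMap (algebraMap ℚ k).injective
  haveI : CharZero F := charZero_of_injective_algebraMap (algebraMap k F).injective
  haveI : IsAlgClosed B := IsAlgClosure.isAlgClosed k
  haveI : IsAlgClosed Ω := IsAlgClosure.isAlgClosed F
  letI : Algebra ℚ B := ((algebraMap k B).comp (algebraMap ℚ k)).toAlgebra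
  haveI : IsScalarTower ℚ k B := IsScalarTower.of_algebraMap_eq fun _ => rfl
  letI : Algebra F₀ Ω := ((algebraMap F Ω).comp i₀).toAlgebra
  let j : AlgebraicClosure ℚ →ₐ[ℚ] B := IsAlgClosed.lift
  let eA : AlgebraicClosure F₀ →ₐ[F₀] Ω := IsAlgClosed.lift
  let e : AlgebraicClosure F₀ →+* Ω := eA
  have he : ∀ z, e (algebraMap F₀ (AlgebraicClosure F₀) z) = algebraMap F Ω (i₀ z) :=
    fun z => eA.commutes z
  obtain ⟨σ, hσc, hσ, hσP⟩ := h1 n ℚ k (AlgebraicClosure ℚ) B j t ht a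
  obtain ⟨s₀, hs1, hs2⟩ := h2 ℚ k F₀ F (AlgebraicClosure F₀) Ω (AlgebraicClosure ℚ) B s j σ hσc hσ
    i₀ e he (fun c => RingHom.congr_fun (Subsingleton.elim (i₀.comp (algebraMap ℚ F₀))
      ((algebraMap k F).comp (algebraMap ℚ k))) c)
  obtain ⟨O, hO, e', he', hOe⟩ := hAG (AlgebraicClosure F₀) (AlgebraicClosure ℚ) s₀
  set f : F₀ := (x - algebraMap ℚ F₀ b) / (x - algebraMap ℚ F₀ b') with hf
  obtain ⟨γ, hγ⟩ := IsAlgClosed.exists_pow_nat_eq (algebraMap F₀ (AlgebraicClosure F₀) f) hm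
  have hj0 : s.j (algebraMap k B (MvPolynomial.aeval t P)) =
      algebraMap k Ω (MvPolynomial.aeval t P) := s.j.commutes _
  have hγw : (e γ / w) ^ m = (s.j : B →+* Ω) (algebraMap k B (MvPolynomial.aeval t P)) := by
    have h5 : e γ ^ m = algebraMap k Ω (MvPolynomial.aeval t P) * w ^ m := by
      rw [← map_pow, hγ, he, heq]
    rw [div_pow, h5, mul_div_assoc, div_self (pow_ne_zero _ hw0), mul_one]
    exact hj0.symm
  obtain ⟨δ, hδ⟩ := Pool.Agent.W620.SC.root_mem (s.j : B →+* Ω) hm hγw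
  have hδm : δ ^ m = algebraMap k B (MvPolynomial.aeval t P) := by
    apply (s.j : B →+* Ω).injective
    rw [map_pow, hδ, hγw]
  obtain ⟨r, hr, hrσ⟩ := hσP P m δ ha hm hδm
  have hr0 : r ≠ 0 := by
    rintro rfl
    rw [zero_pow hm.ne'] at hr
    exact ha ((map_eq_zero (algebraMap ℚ (AlgebraicClosure ℚ))).1 hr.symm)
  have hsr0 : s₀.j r ≠ 0 := (map_ne_zero _).2 hr0
  have hew : e (γ / s₀.j r) = w * s.j (δ / j r) := by
    rw [map_div₀, hs1, map_div₀]
    have h6 : s.j δ = e γ / w := hδ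
    rw [h6]
    field_simp
  have hfix : ∀ g, s₀.s g (γ / s₀.j r) = γ / s₀.j r := by
    intro g
    apply e.injective
    rw [hs2, hew, map_mul, hw, s.sec, hrσ]
  have hpow : algebraMap F₀ (AlgebraicClosure F₀) f =
      algebraMap ℚ (AlgebraicClosure F₀) (MvPolynomial.eval a P) * (γ / s₀.j r) ^ m := by
    have h7 : (s₀.j r) ^ m = algebraMap ℚ (AlgebraicClosure F₀) (MvPolynomial.eval a P) := by
      rw [← map_pow, hr, s₀.j.commutes]
    rw [div_pow, hγ, h7, mul_div_cancel₀]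
    rw [← h7]
    exact pow_ne_zero _ hsr0
  have heb : e' ≠ b := fun h => hb (h ▸ he')
  have heb' : e' ≠ b' := fun h => hb' (h ▸ he')
  have hq0 : (e' - b) / (e' - b') ≠ 0 := div_ne_zero (sub_ne_zero.2 heb) (sub_ne_zero.2 heb')
  obtain ⟨r', hr'⟩ := h3 ℚ F₀ (AlgebraicClosure F₀) (AlgebraicClosure ℚ) s₀ O hO f
    ((e' - b) / (e' - b')) (MvPolynomial.eval a P) (γ / s₀.j r) m hq0 ha hm
    (val_frac hO.2.1 hOe heb heb') hfix hpow
  exact ⟨e', he', r', hr'⟩

end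

end Pool.Agent.Zk95.FG
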