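import Mathlib
import Pool.Agent.Zk95.FG.Spec

/-!
# The values of `x` at the local points (project FG, part L)
-/

set_option autoImplicit false
set_option linter.all false

namespace Pool.Agent.Zk95.FG

open Pool.Agent.TH954 Pool.Agent.Zk12.FG Pool.Agent.Y158.GR

attribute [-instance] DivisionRing.toRatAlgebra

theorem val_prod {K M C : Type} [Field K] [Field M] [Field C] [Algebra K M] [Algebra K C]
    {pl : Plc K M C} {ι : Type} (s : Finset ι) {f : ι → M} {g : ι → C}
    (h : ∀ i ∈ s, pl.val (f i) (g i)) : pl.val (∏ i ∈ s, f i) (∏ i ∈ s, g i) := by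
  classical
  induction s using Finset.induction_on with
  | empty => rw [Finset.prod_empty, Finset.prod_empty]; exact Plc.val_one
  | insert i s hi ih =>
    rw [Finset.prod_insert hi, Finset.prod_insert hi]
    exact (h i (Finset.mem_insert_self _ _)).mul
      (ih (fun j hj => h j (Finset.mem_insert_of_mem hj)))

/-- pigeonhole: one of the finitely many numbers is infinitely divisible -/
theorem pigeon {p : ℕ} [Fact p.Prime] (h5 : S_POW) {E : Finset ℚ} {q : ℚ → ℚ_[p]} {y : ℚ_[p]}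
    (hq : ∀ e ∈ E, q e ≠ 0) (hy : y ≠ 0)
    (h : ∀ m : ℕ, 0 < m → ∃ e ∈ E, ∃ z : ℚ_[p], y = q e * z ^ m) : ∃ e ∈ E, y = q e := by
  classical
  by_contra hcon
  push Not at hcon
  have h6 : ∀ e : ℚ, ∃ m : ℕ, 0 < m ∧ (e ∈ E → ∀ z : ℚ_[p], y ≠ q e * z ^ m) := by
    intro e
    by_cases he : e ∈ E
    · by_contra h7
      push Not at h7
      apply hcon e he
      have h8 := h5 p (y / q e) (div_ne_zero hy (hq e he)) (fun m hm => by
        obtain ⟨-, z, hz⟩ := h7 m hm
        exact ⟨z, by rw [hz, mul_comm, mul_div_assoc, div_self (hq e he), mul_one]⟩)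
      rw [div_eq_one_iff_eq (hq e he)] at h8
      exact h8
    · exact ⟨1, one_pos, fun h => absurd h he⟩
  choose m hm0 hm using h6
  obtain ⟨e, he, z, hz⟩ := h (∏ e ∈ E, m e) (Finset.prod_pos fun e _ => hm0 e)
  obtain ⟨l, hl⟩ := Finset.dvd_prod_of_mem m he
  refine hm e he (z ^ l) ?_
  rw [hz, hl, mul_comm (m e) l, pow_mul]

section

variable {n : ℕ} {k F₀ F Ω B : Type} [Field k] [Field F₀] [Field F] [Field Ω]
  [Field B] [Algebra ℚ k] [Algebra ℚ F₀] [Algebra k F] [Algebra F Ω] [Algebra k Ω]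
  [Algebra k B] [IsScalarTower k F Ω] [IsAlgClosure F Ω] [IsAlgClosure k B]

/-- the value of `(x - b) / (x - b')` at a local point is one of the finitely many values -/
theorem value (h1 : S_SPLITN) (h2 : S_RES) (h3 : S_CLS) (h4 : S_APPROX) (h5 : S_POW)
    {t : Fin n → k} (ht : RatFn ℚ t) (i₀ : F₀ →+* F) {x : F₀} {E : Finset ℚ}
    (hAG : AllGeo ℚ F₀ x E) (hx : ∀ c : ℚ, x - algebraMap ℚ F₀ c ≠ 0) (s : GalSection k F Ω B)
    {b b' : ℚ} (hb : b ∉ E) (hb' : b' ∉ E) (p : ℕ) [Fact p.Prime] {C : Type} [Field C]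
    [Algebra k ℚ_[p]] [Algebra ℚ_[p] C] [Algebra k C] [IsScalarTower k ℚ_[p] C]
    [IsAlgClosure ℚ_[p] C] {pl : Plc k Ω C} (hpl : s.GivenBy ℚ_[p] pl) {y : ℚ_[p]} (hy : y ≠ 0)
    (hval : pl.val (algebraMap F Ω (i₀ ((x - algebraMap ℚ F₀ b) / (x - algebraMap ℚ F₀ b'))))
      (algebraMap ℚ_[p] C y)) : ∃ e ∈ E, y = (((e - b) / (e - b') : ℚ) : ℚ_[p]) := by
  haveI : CharZero k := charZero_of_injective_algebraMap (algebraMap ℚ k).injective
  haveI : CharZero F := charZero_of_injective_algebraMap (algebraMap k F).injective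
  haveI : IsAlgClosed B := IsAlgClosure.isAlgClosed k
  haveI : Algebra.IsAlgebraic k B := IsAlgClosure.isAlgebraic
  haveI : Normal k B := IsAlgClosure.normal k B
  haveI : IsAlgClosed Ω := IsAlgClosure.isAlgClosed F
  haveI : Algebra.IsAlgebraic F Ω := IsAlgClosure.isAlgebraic
  haveI : CharZero C := charZero_of_injective_algebraMap (algebraMap ℚ_[p] C).injective
  refine pigeon h5 (q := fun e => (((e - b) / (e - b') : ℚ) : ℚ_[p])) (fun e he => ?_) hy
    (fun m hm => ?_)
  · have heb : e ≠ b := fun h => hb (h ▸ he)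
    have heb' : e ≠ b' := fun h => hb' (h ▸ he)
    exact Rat.cast_ne_zero.2 (div_ne_zero (sub_ne_zero.2 heb) (sub_ne_zero.2 heb'))
  · set f : F₀ := (x - algebraMap ℚ F₀ b) / (x - algebraMap ℚ F₀ b') with hf
    have hf0 : f ≠ 0 := div_ne_zero (hx b) (hx b')
    have hF0 : algebraMap F Ω (i₀ f) ≠ 0 := (map_ne_zero _).2 ((map_ne_zero _).2 hf0)
    obtain ⟨h, hh⟩ := IsAlgClosed.exists_pow_nat_eq (algebraMap F Ω (i₀ f)) hm
    have hh0 : h ≠ 0 := by
      rintro rfl
      rw [zero_pow hm.ne'] at hh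
      exact hF0 hh.symm
    obtain ⟨c, w, hc0, hw, hcw⟩ := kummer s hh0 hm (fun g => by
      rw [hh]
      exact (s.s g).commutes _)
    obtain ⟨P, d, hd, hP, hcP⟩ := exists_poly ht c hc0 hm
    have hw0 : w ≠ 0 := by
      rintro rfl
      rw [zero_pow hm.ne', mul_zero] at hcw
      exact pow_ne_zero _ hh0 hcw
    set w' : Ω := algebraMap k Ω d * w with hw'
    have hw'0 : w' ≠ 0 := mul_ne_zero ((map_ne_zero _).2 hd) hw0
    have hw'f : ∀ g, s.s g w' = w' := by
      intro g
      rw [hw', map_mul, hw, IsScalarTower.algebraMap_apply k F Ω, (s.s g).commutes]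
    have heq : algebraMap F Ω (i₀ f) = algebraMap k Ω (MvPolynomial.aeval t P) * w' ^ m := by
      rw [← hh, hcw, hcP, hw', mul_pow, map_mul, map_pow]
      ring
    -- the local side
    set τ : Fin n → ℚ_[p] := fun i => algebraMap k ℚ_[p] (t i) with hτ
    letI : Algebra ℚ ℚ_[p] := DivisionRing.toRatAlgebra
    have hτP : MvPolynomial.aeval τ P = algebraMap k ℚ_[p] (MvPolynomial.aeval t P) := by
      rw [MvPolynomial.aeval_def, MvPolynomial.aeval_def, MvPolynomial.hom_eval₂]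
      congr 1
      exact Subsingleton.elim _ _
    obtain ⟨a, z, ha, hz, haz⟩ := h4 n p τ P (by
      rw [hτP]
      exact (map_ne_zero _).2 hP) m hm
    obtain ⟨e, he, r, hr⟩ := spec h1 h2 h3 ht i₀ hAG s hb hb' hm P w' hw'f hw'0 heq a ha
    -- the value of `w'`
    have hφ0 : algebraMap k ℚ_[p] (MvPolynomial.aeval t P) ≠ 0 := (map_ne_zero _).2 hP
    have hφC : algebraMap k C (MvPolynomial.aeval t P) ≠ 0 := (map_ne_zero _).2 hP
    have hv1 : pl.val (algebraMap k Ω (MvPolynomial.aeval t P))⁻¹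
        (algebraMap k C (MvPolynomial.aeval t P))⁻¹ := Plc.val.inv (Plc.val_alg _) hφC
    have hv2 : pl.val (w' ^ m) ((algebraMap k C (MvPolynomial.aeval t P))⁻¹ *
        algebraMap ℚ_[p] C y) := by
      have h8 := hv1.mul hval
      have h9 : (algebraMap k Ω (MvPolynomial.aeval t P))⁻¹ * algebraMap F Ω (i₀ f) = w' ^ m := by
        rw [heq, inv_mul_cancel_left₀ ((map_ne_zero _).2 hP)]
      rwa [h9] at h8
    have hw'W : w' ∈ pl.W := Plc.mem_of_pow_mem hm hv2.mem
    obtain ⟨ω, hω⟩ := fixL_val hpl w' hw'f hw'W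
    have hvω : pl.val w' (algebraMap ℚ_[p] C ω) := ⟨hw'W, hω.symm⟩
    have hy2 : y = algebraMap k ℚ_[p] (MvPolynomial.aeval t P) * ω ^ m := by
      apply (algebraMap ℚ_[p] C).injective
      have h10 := (hvω.pow m).unique hv2
      rw [map_mul, map_pow, h10, ← IsScalarTower.algebraMap_apply k ℚ_[p] C,
        mul_inv_cancel_left₀ hφC]
    have hr0 : (r : ℚ_[p]) ≠ 0 := by
      rw [Rat.cast_ne_zero]
      rintro rfl
      have heb : e ≠ b := fun h => hb (h ▸ he)
      have heb' : e ≠ b' := fun h => hb' (h ▸ he)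
      rw [zero_pow hm.ne', mul_zero] at hr
      exact div_ne_zero (sub_ne_zero.2 heb) (sub_ne_zero.2 heb') hr
    refine ⟨e, he, z * ω / r, ?_⟩
    beta_reduce
    have h11 : algebraMap ℚ ℚ_[p] (MvPolynomial.eval a P) = ((MvPolynomial.eval a P : ℚ) : ℚ_[p]) :=
      rfl
    rw [hr, hy2, ← hτP, haz, h11, Rat.cast_mul, Rat.cast_pow, div_pow, mul_pow]
    field_simp

/-- the six cases of the value of `(x - b) / (x - b')` -/
theorem moebius {K : Type} [Field K] {ξ e b b' : K} (h1 : ξ ≠ b') (h2 : e ≠ b') (hb : b ≠ b')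
    (h : (ξ - b) / (ξ - b') = (e - b) / (e - b')) : ξ = e := by
  have h3 : ξ - b' ≠ 0 := sub_ne_zero.2 h1
  have h4 : e - b' ≠ 0 := sub_ne_zero.2 h2
  rw [div_eq_div_iff h3 h4] at h
  have h5 : (ξ - e) * (b - b') = 0 := by linear_combination h
  rcases mul_eq_zero.1 h5 with h6 | h6
  · exact sub_eq_zero.1 h6
  · exact absurd (sub_eq_zero.1 h6) hb

end

/-- **part L** -/
theorem locv (h1 : S_SPLITN) (h2 : S_RES) (h3 : S_CLS) (h4 : S_APPROX) (h5 : S_POW) : S_LOCV := by
  intro n k F₀ F Ω B _ _ _ _ _ _ _ _ _ _ _ _ _ _ t ht i₀ x E hAG hx s p _ C _ _ _ _ _ _ pl hpl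
  classical
  haveI : CharZero k := charZero_of_injective_algebraMap (algebraMap ℚ k).injective
  haveI : CharZero F := charZero_of_injective_algebraMap (algebraMap k F).injective
  haveI : IsAlgClosed B := IsAlgClosure.isAlgClosed k
  haveI : Algebra.IsAlgebraic k B := IsAlgClosure.isAlgebraic
  haveI : Normal k B := IsAlgClosure.normal k B
  haveI : IsAlgClosed Ω := IsAlgClosure.isAlgClosed F
  haveI : Algebra.IsAlgebraic F Ω := IsAlgClosure.isAlgebraic
  haveI : CharZero C := charZero_of_injective_algebraMap (algebraMap ℚ_[p] C).injective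
  have hQ : ∀ c : ℚ, i₀ (algebraMap ℚ F₀ c) = algebraMap k F (algebraMap ℚ k c) := fun c =>
    RingHom.congr_fun (Subsingleton.elim (i₀.comp (algebraMap ℚ F₀))
      ((algebraMap k F).comp (algebraMap ℚ k))) c
  have hQC : ∀ c : ℚ, algebraMap k C (algebraMap ℚ k c) = algebraMap ℚ_[p] C (c : ℚ_[p]) := by
    intro c
    letI : Algebra ℚ ℚ_[p] := DivisionRing.toRatAlgebra
    exact RingHom.congr_fun (Subsingleton.elim ((algebraMap k C).comp (algebraMap ℚ k))
      ((algebraMap ℚ_[p] C).comp (algebraMap ℚ ℚ_[p]))) c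
  have hx0 : ∀ c : ℚ, x - algebraMap ℚ F₀ c ≠ 0 := by
    intro c h
    apply hx
    rw [sub_eq_zero.1 h, hQ]
    exact isAlgebraic_algebraMap _
  set X : Ω := algebraMap F Ω (i₀ x) with hX
  have hXc : ∀ c : ℚ, algebraMap F Ω (i₀ (x - algebraMap ℚ F₀ c)) =
      X - algebraMap k Ω (algebraMap ℚ k c) := by
    intro c
    rw [map_sub, map_sub, hQ, ← IsScalarTower.algebraMap_apply k F Ω]
  have hXne : ∀ c : ℚ, X - algebraMap k Ω (algebraMap ℚ k c) ≠ 0 := by
    intro c
    rw [← hXc]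
    exact (map_ne_zero _).2 ((map_ne_zero _).2 (hx0 c))
  have hXfix : X ∈ fixL s := F_fixL s _
  by_cases hXW : X ∈ pl.W
  · obtain ⟨ξ, hξ⟩ := fixL_val hpl X hXfix hXW
    have hvX : pl.val X (algebraMap ℚ_[p] C ξ) := ⟨hXW, hξ.symm⟩
    have hvc : ∀ c : ℚ, pl.val (X - algebraMap k Ω (algebraMap ℚ k c))
        (algebraMap ℚ_[p] C (ξ - (c : ℚ_[p]))) := by
      intro c
      rw [map_sub, ← hQC]
      exact hvX.sub (Plc.val_alg _)
    -- two rational numbers
    have hfin : (((E : Set ℚ)) ∪ {c : ℚ | (c : ℚ_[p]) = ξ}).Finite := by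
      apply E.finite_toSet.union
      apply Set.Subsingleton.finite
      intro c hc c' hc'
      have : (c : ℚ_[p]) = c' := hc.trans hc'.symm
      exact Rat.cast_injective this
    obtain ⟨b, hb⟩ := hfin.exists_notMem
    obtain ⟨b', hb'⟩ := (hfin.union (Set.finite_singleton b)).exists_notMem
    simp only [Set.mem_union, Finset.mem_coe, Set.mem_setOf_eq, not_or, Set.mem_singleton_iff]
      at hb hb'
    have hy1 : ξ - (b : ℚ_[p]) ≠ 0 := sub_ne_zero.2 (Ne.symm hb.2)
    have hy2 : ξ - (b' : ℚ_[p]) ≠ 0 := sub_ne_zero.2 (Ne.symm hb'.1.2)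
    obtain ⟨e, he, hee⟩ := value h1 h2 h3 h4 h5 ht i₀ hAG hx0 s (b := b) (b' := b') hb.1 hb'.1.1 p
      hpl (y := (ξ - (b : ℚ_[p])) / (ξ - (b' : ℚ_[p]))) (div_ne_zero hy1 hy2) (by
        rw [map_div₀, map_div₀, hXc, hXc, map_div₀, div_eq_mul_inv, div_eq_mul_inv]
        exact (hvc b).mul ((hvc b').inv ((map_ne_zero _).2 hy2)))
    have hξe : ξ = (e : ℚ_[p]) := by
      refine moebius (b := (b : ℚ_[p])) (b' := (b' : ℚ_[p])) (Ne.symm hb'.1.2) ?_ ?_ ?_
      · intro h
        have := Rat.cast_injective h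
        exact hb'.1.1 (this ▸ he)
      · intro h
        exact hb'.2 (Rat.cast_injective h).symm
      · rw [hee]
        push_cast
        rfl
    have h12 := val_prod (pl := pl) E (f := fun e => X - algebraMap k Ω (algebraMap ℚ k e))
      (g := fun e => algebraMap ℚ_[p] C (ξ - (e : ℚ_[p]))) (fun e _ => hvc e)
    have h13 : ∏ e ∈ E, algebraMap ℚ_[p] C (ξ - (e : ℚ_[p])) = 0 := by
      apply Finset.prod_eq_zero he
      rw [hξe, sub_self, map_zero]
    rw [h13] at h12
    have h14 : algebraMap F Ω (∏ e ∈ E, (i₀ x - algebraMap k F (algebraMap ℚ k e))) =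
        ∏ e ∈ E, (X - algebraMap k Ω (algebraMap ℚ k e)) := by
      rw [map_prod]
      apply Finset.prod_congr rfl
      intro e _
      rw [map_sub, ← IsScalarTower.algebraMap_apply k F Ω]
    rw [h14]
    exact h12
  · exfalso
    obtain ⟨b, hb⟩ := E.finite_toSet.exists_notMem
    obtain ⟨b', hb'⟩ := (E.finite_toSet.union (Set.finite_singleton b)).exists_notMem
    simp only [Set.mem_union, Finset.mem_coe, not_or, Set.mem_singleton_iff] at hb hb'
    have hX0 : X ≠ 0 := by
      intro h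
      rw [h] at hXW
      exact hXW (zero_mem _)
    have hv : ∀ c : ℚ, pl.val (1 - algebraMap k Ω (algebraMap ℚ k c) * X⁻¹) 1 := by
      intro c
      have h15 := Plc.val_one.sub ((Plc.val_alg (algebraMap ℚ k c)).mul
        (Plc.val_inv_of_notMem hXW))
      rwa [mul_zero, sub_zero] at h15
    obtain ⟨e, he, hee⟩ := value h1 h2 h3 h4 h5 ht i₀ hAG hx0 s (b := b) (b' := b') hb hb'.1 p
      hpl (y := 1) one_ne_zero (by
        rw [map_one, map_div₀, map_div₀, hXc, hXc]
        have h16 : (X - algebraMap k Ω (algebraMap ℚ k b)) /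
            (X - algebraMap k Ω (algebraMap ℚ k b')) =
            (1 - algebraMap k Ω (algebraMap ℚ k b) * X⁻¹) *
            (1 - algebraMap k Ω (algebraMap ℚ k b') * X⁻¹)⁻¹ := by
          rw [div_eq_mul_inv]
          have h17 : ∀ u : Ω, X - u = X * (1 - u * X⁻¹) := by
            intro u
            field_simp
          rw [h17, h17 (algebraMap k Ω (algebraMap ℚ k b')), mul_inv]
          field_simp
        rw [h16]
        have h18 := (hv b).mul ((hv b').inv one_ne_zero)
        rwa [inv_one, mul_one] at h18)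
    have h19 : (e - b) / (e - b') = (1 : ℚ) := by
      have h20 : (((e - b) / (e - b') : ℚ) : ℚ_[p]) = ((1 : ℚ) : ℚ_[p]) := by
        rw [← hee, Rat.cast_one]
      exact Rat.cast_injective h20
    have heb' : e ≠ b' := fun h => hb'.1 (h ▸ he)
    rw [div_eq_one_iff_eq (sub_ne_zero.2 heb')] at h19
    exact hb'.2 (by linarith)

end Pool.Agent.Zk95.FG
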