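import Pool.Agent.Zk12.FG.Fin
import Pool.Agent.Zk12.FG.Ob
import Pool.Agent.Zk95.FG.Hit
import Pool.Agent.Zk95.FG.Koep
import Pool.Agent.Zk95.FG.Locv
import Pool.Agent.Zk95.FG.Pow
import Pool.Agent.Zk17.FG.SplitN
import Pool.Agent.Zk90.FG.Res
import Pool.Agent.Zk81.FG.Cls
import Pool.Agent.Zk78.FG.App2

/-!
# Project FG: all parts together
-/

set_option autoImplicit false
set_option linter.all false

namespace Pool.Agent.Zk95.FG

open Pool.Agent.Zk12.FG

theorem obs : S_OBS := obs_of hit Pool.Agent.Zk78.FG.app2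

theorem loc : S_LOCV := locv Pool.Agent.Zk17.FG.splitN Pool.Agent.Zk90.FG.res Pool.Agent.Zk81.FG.cls
  approx pow

open Pool.Agent.Zk95.TD (CrossRatio Progressions) in
/-- almost all quadratic twists: all birational sections over all fields of rational functions -/
theorem final (K : Type) [Fintype K] (e : K → ℤ) (he : Function.Injective e)
    (hev : Even (Fintype.card K)) (hK : 6 ≤ Fintype.card K) (hCR : CrossRatio e)
    (hPr : Progressions e) : ∃ C : ℝ, ∀ X : ℕ, 2 ≤ X →
      ({d : ℤ | d.natAbs ≤ X ∧ Squarefree d ∧ ¬ AllSectionsK e d}.ncard : ℝ) ≤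
        C * X * (Real.log X) ^ (-(1 / 5) : ℝ) :=
  final_of obs koep loc K e he hev hK hCR hPr

end Pool.Agent.Zk95.FG
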